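import Mathlib

/-!
# A critical 4-uniform hypergraph for 6-colourings of pairs

`SMono col E`: all pairs inside `E` have the same colour. By Ramsey's theorem some complete
4-uniform hypergraph has no 6-colouring of the pairs without such an edge; a minimal subhypergraph
with this property, minus one edge `E0`, forces `E0` to be monochromatic.
-/

namespace Pool.Agent.X153.OH

/-- all pairs of distinct elements of `E` have the same colour -/
def SMono {V : Type} (col : V → V → Fin 6) (E : Finset V) : Prop :=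
  ∃ k, ∀ x ∈ E, ∀ y ∈ E, x ≠ y → col x y = k

theorem seq_exists {V : Type} [DecidableEq V] (col : V → V → Fin 6) (m : ℕ) :
    ∀ S : Finset V, 7 ^ m ≤ S.card → ∃ (v : Fin m → V) (χ : Fin m → Fin 6),
      Function.Injective v ∧ (∀ i, v i ∈ S) ∧ ∀ i j, i < j → col (v i) (v j) = χ i := by
  induction m with
  | zero =>
    intro S _
    exact ⟨fun i => i.elim0, fun i => i.elim0, fun i => i.elim0, fun i => i.elim0,
      fun i => i.elim0⟩
  | succ m ih =>
    intro S hS
    have hpos : 0 < S.card := lt_of_lt_of_le (by positivity) hS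
    obtain ⟨x, hx⟩ := Finset.card_pos.1 hpos
    have h7 : 1 ≤ 7 ^ m := Nat.one_le_pow _ _ (by norm_num)
    have hcard : (Finset.univ : Finset (Fin 6)).card * 7 ^ m ≤ (S.erase x).card := by
      rw [Finset.card_erase_of_mem hx, Finset.card_univ, Fintype.card_fin]
      have : 7 ^ (m + 1) = 7 * 7 ^ m := by ring
      omega
    obtain ⟨k, -, hk⟩ := Finset.exists_le_card_fiber_of_mul_le_card_of_maps_to
      (f := fun y => col x y) (s := S.erase x) (t := Finset.univ) (fun a _ => Finset.mem_univ _)
      ⟨0, Finset.mem_univ _⟩ hcard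
    obtain ⟨v, χ, hv, hvS, hcol⟩ := ih _ hk
    have hmem : ∀ i, v i ≠ x ∧ v i ∈ S ∧ col x (v i) = k := by
      intro i
      have := hvS i
      simp only [Finset.mem_filter, Finset.mem_erase] at this
      exact ⟨this.1.1, this.1.2, this.2⟩
    refine ⟨Fin.cons x v, Fin.cons k χ, ?_, ?_, ?_⟩
    · rw [Fin.cons_injective_iff]
      refine ⟨?_, hv⟩
      rintro ⟨i, hi⟩
      exact (hmem i).1 hi
    · intro i
      refine Fin.cases ?_ (fun i => ?_) i
      · simpa using hx
      · simpa using (hmem i).2.1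
    · intro i j hij
      revert hij
      refine Fin.cases ?_ (fun i => ?_) i
      · refine Fin.cases ?_ (fun j => ?_) j
        · intro h; exact absurd h (lt_irrefl _)
        · intro _; simpa using (hmem j).2.2
      · refine Fin.cases ?_ (fun j => ?_) j
        · intro h; exact absurd h (by simp)
        · intro h
          simpa using hcol i j (by simpa using h)

theorem ramsey_six {V : Type} [DecidableEq V] (col : V → V → Fin 6)
    (hsym : ∀ x y, col x y = col y x) (S : Finset V) (hS : 7 ^ 19 ≤ S.card) :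
    ∃ E : Finset V, E ⊆ S ∧ E.card = 4 ∧ SMono col E := by
  obtain ⟨v, χ, hv, hvS, hcol⟩ := seq_exists col 19 S hS
  have hlt : (Finset.univ : Finset (Fin 6)).card * 3 < (Finset.univ : Finset (Fin 19)).card := by
    simp
  obtain ⟨k, -, hk⟩ := Finset.exists_lt_card_fiber_of_mul_lt_card_of_maps_to
      (f := χ) (s := Finset.univ) (t := Finset.univ) (fun a _ => Finset.mem_univ _) hlt
  obtain ⟨T, hT, hTc⟩ := Finset.exists_subset_card_eq (show 4 ≤ _ from hk)
  refine ⟨T.image v, ?_, ?_, k, ?_⟩
  · intro y hy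
    obtain ⟨i, _, rfl⟩ := Finset.mem_image.1 hy
    exact hvS i
  · rw [Finset.card_image_of_injective _ hv, hTc]
  · intro x hx y hy hxy
    obtain ⟨i, hi, rfl⟩ := Finset.mem_image.1 hx
    obtain ⟨j, hj, rfl⟩ := Finset.mem_image.1 hy
    have hi' : χ i = k := (Finset.mem_filter.1 (hT hi)).2
    have hj' : χ j = k := (Finset.mem_filter.1 (hT hj)).2
    have hij : i ≠ j := fun h => hxy (by rw [h])
    rcases lt_or_gt_of_ne hij with h | h
    · rw [hcol i j h, hi']
    · rw [hsym, hcol j i h, hj']

/-- there is a symmetric 6-colouring of pairs without monochromatic edge -/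
def SGood {V : Type} (H : Finset (Finset V)) : Prop :=
  ∃ col : V → V → Fin 6, (∀ x y, col x y = col y x) ∧ ∀ E ∈ H, ¬ SMono col E

/-- The critical gadget. -/
theorem exists_gadget : ∃ (W : Type) (_ : Fintype W) (_ : DecidableEq W)
    (G : Finset (Finset W)) (E0 : Finset W) (c1 : W → W → Fin 6) (k1 : Fin 6),
    E0.card = 4 ∧ (∀ E ∈ G, E.card = 4) ∧ (∀ x y, c1 x y = c1 y x) ∧
    (∀ E ∈ G, ¬ SMono c1 E) ∧ (∀ x ∈ E0, ∀ y ∈ E0, x ≠ y → c1 x y = k1) ∧
    ∀ col : W → W → Fin 6, (∀ x y, col x y = col y x) → (∀ E ∈ G, ¬ SMono col E) →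
      SMono col E0 := by
  classical
  set N : ℕ := 7 ^ 19 with hN
  set K : Finset (Finset (Fin N)) := (Finset.univ : Finset (Fin N)).powersetCard 4 with hK
  have hbad : ¬ SGood K := by
    rintro ⟨col, hsym, hcol⟩
    obtain ⟨E, _, hE4, hmono⟩ := ramsey_six col hsym Finset.univ
      (by rw [Finset.card_univ, Fintype.card_fin])
    exact hcol E (Finset.mem_powersetCard.2 ⟨Finset.subset_univ _, hE4⟩) hmono
  have hne : (K.powerset.filter (fun F => ¬ SGood F)).Nonempty :=
    ⟨K, Finset.mem_filter.2 ⟨Finset.mem_powerset_self _, hbad⟩⟩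
  obtain ⟨F, hF, hmin⟩ := Finset.exists_min_image _ Finset.card hne
  rw [Finset.mem_filter, Finset.mem_powerset] at hF
  have hFne : F.Nonempty := by
    rw [Finset.nonempty_iff_ne_empty]
    intro h
    apply hF.2
    rw [h]
    exact ⟨fun _ _ => 0, fun _ _ => rfl, fun E hE => absurd hE (Finset.notMem_empty _)⟩
  obtain ⟨E0, hE0⟩ := hFne
  have hgood : SGood (F.erase E0) := by
    by_contra hng
    have := hmin (F.erase E0) (Finset.mem_filter.2 ⟨Finset.mem_powerset.2
      ((Finset.erase_subset _ _).trans hF.1), hng⟩)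
    have h2 := Finset.card_erase_lt_of_mem hE0
    omega
  have hforce : ∀ col : Fin N → Fin N → Fin 6, (∀ x y, col x y = col y x) →
      (∀ E ∈ F.erase E0, ¬ SMono col E) → SMono col E0 := by
    intro col hsym hcol
    by_contra hn
    apply hF.2
    refine ⟨col, hsym, fun E hE => ?_⟩
    by_cases h : E = E0
    · rw [h]; exact hn
    · exact hcol E (Finset.mem_erase.2 ⟨h, hE⟩)
  obtain ⟨c1, hsym, hc1⟩ := hgood
  obtain ⟨k1, hk1⟩ := hforce c1 hsym hc1
  refine ⟨Fin N, inferInstance, inferInstance, F.erase E0, E0, c1, k1,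
    (Finset.mem_powersetCard.1 (hF.1 hE0)).2, ?_, hsym, hc1, hk1, hforce⟩
  intro E hE
  exact (Finset.mem_powersetCard.1 (hF.1 (Finset.mem_of_mem_erase hE))).2

end Pool.Agent.X153.OH
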