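import Mathlib
import Pool.Agent.X153.OH.Critical

/-!
# Gluing the critical gadgets
-/

namespace Pool.Agent.X153.OH

/-- `inl (i, b)` are the two end points of the `i`-th reference pair, `inr ((i, j), t)` the four
vertices of the test edge `(i, j)`. -/
abbrev Base := (Fin 6 × Fin 2) ⊕ ((Fin 6 × Fin 6) × Fin 4)

abbrev Idx := (Fin 6 × Fin 6) × Fin 6

def t1 : Fin 6 → Fin 4 := ![0, 1, 0, 1, 0, 2]
def t2 : Fin 6 → Fin 4 := ![2, 3, 3, 2, 1, 3]

/-- the reference colour of the quadruple `q` -/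
def mid (q : Idx) : Fin 6 := if q.2 < 4 then q.1.1 else q.1.2

def quad (q : Idx) : Fin 4 → Base :=
  ![Sum.inr (q.1, t1 q.2), Sum.inr (q.1, t2 q.2), Sum.inl (mid q, 0), Sum.inl (mid q, 1)]

def c0 : Base → Base → Fin 6
  | Sum.inl x, Sum.inl y => if x.1 = y.1 then x.1 else 0
  | Sum.inl x, Sum.inr _ => x.1
  | Sum.inr _, Sum.inl y => y.1
  | Sum.inr x, Sum.inr y => if x.1 = y.1 then (if x.2.1 / 2 = y.2.1 / 2 then x.1.2 else x.1.1) else 0

theorem c0_symm (x y : Base) : c0 x y = c0 y x := by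
  rcases x with x | x <;> rcases y with y | y
  · simp only [c0]
    by_cases h : x.1 = y.1
    · rw [if_pos h, if_pos h.symm, h]
    · rw [if_neg h, if_neg (fun h' => h h'.symm)]
  · rfl
  · rfl
  · simp only [c0]
    by_cases h : x.1 = y.1
    · rw [if_pos h, if_pos h.symm, h]
      by_cases h2 : x.2.1 / 2 = y.2.1 / 2
      · rw [if_pos h2, if_pos h2.symm]
      · rw [if_neg h2, if_neg (fun h' => h2 h'.symm)]
    · rw [if_neg h, if_neg (fun h' => h h'.symm)]

theorem t12 : ∀ s : Fin 6, t1 s ≠ t2 s := by decide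

theorem quad_injective (q : Idx) : Function.Injective (quad q) := by
  intro a b hab
  have h12 := t12 q.2
  fin_cases a <;> fin_cases b <;> simp_all [quad]

theorem c0_t12 : ∀ (s : Fin 6) (i j : Fin 6),
    (if (t1 s).1 / 2 = (t2 s).1 / 2 then j else i) = mid ((i, j), s) := by
  intro s i j
  fin_cases s <;> simp [t1, t2, mid]

theorem c0_quad_lt (q : Idx) : ∀ a b : Fin 4, a < b → c0 (quad q a) (quad q b) = mid q := by
  intro a b hab
  have h := c0_t12 q.2 q.1.1 q.1.2
  fin_cases a <;> fin_cases b <;> first | (exact absurd hab (by decide)) | (simp [quad, c0]; try exact h)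

theorem c0_quad (q : Idx) (a b : Fin 4) (hab : a ≠ b) : c0 (quad q a) (quad q b) = mid q := by
  rcases lt_or_gt_of_ne hab with h | h
  · exact c0_quad_lt q a b h
  · rw [c0_symm]; exact c0_quad_lt q b a h

section
variable {W : Type} [Fintype W] [DecidableEq W] (E0 : Finset W) (ρ : W → Fin 4)

abbrev Vx (W : Type) := Base ⊕ (Idx × W)

def glue (q : Idx) (u : W) : Vx W := if u ∈ E0 then Sum.inl (quad q (ρ u)) else Sum.inr (q, u)

theorem glue_injective (hρ : Set.InjOn ρ E0) (q : Idx) : Function.Injective (glue E0 ρ q) := by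
  intro u w h
  unfold glue at h
  by_cases hu : u ∈ E0 <;> by_cases hw : w ∈ E0
  · rw [if_pos hu, if_pos hw] at h
    exact hρ hu hw (quad_injective q (Sum.inl.inj h))
  · rw [if_pos hu, if_neg hw] at h
    exact absurd h (by simp)
  · rw [if_neg hu, if_pos hw] at h
    exact absurd h (by simp)
  · rw [if_neg hu, if_neg hw] at h
    exact (Prod.mk.inj (Sum.inr.inj h)).2

open Classical in
/-- the colouring of the glued hypergraph -/
noncomputable def colV (c1 : W → W → Fin 6) (k1 : Fin 6) : Vx W → Vx W → Fin 6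
  | Sum.inl x, Sum.inl y => c0 x y
  | Sum.inl x, Sum.inr z => if h : ∃ w ∈ E0, quad z.1 (ρ w) = x then
      Equiv.swap k1 (mid z.1) (c1 h.choose z.2) else 0
  | Sum.inr z, Sum.inl x => if h : ∃ w ∈ E0, quad z.1 (ρ w) = x then
      Equiv.swap k1 (mid z.1) (c1 h.choose z.2) else 0
  | Sum.inr z, Sum.inr z' => if z.1 = z'.1 then Equiv.swap k1 (mid z.1) (c1 z.2 z'.2) else 0

variable {E0 ρ}

theorem colV_symm {c1 : W → W → Fin 6} {k1 : Fin 6} (hs : ∀ x y, c1 x y = c1 y x) (x y : Vx W) :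
    colV E0 ρ c1 k1 x y = colV E0 ρ c1 k1 y x := by
  rcases x with x | x <;> rcases y with y | y
  · exact c0_symm x y
  · rfl
  · rfl
  · simp only [colV]
    by_cases h : x.1 = y.1
    · rw [if_pos h, if_pos h.symm, h, hs]
    · rw [if_neg h, if_neg (fun h' => h h'.symm)]

theorem colV_glue {c1 : W → W → Fin 6} {k1 : Fin 6} (hs : ∀ x y, c1 x y = c1 y x)
    (hρ : Set.InjOn ρ E0) (hk : ∀ x ∈ E0, ∀ y ∈ E0, x ≠ y → c1 x y = k1) (q : Idx) (u w : W)
    (huw : u ≠ w) :
    colV E0 ρ c1 k1 (glue E0 ρ q u) (glue E0 ρ q w) = Equiv.swap k1 (mid q) (c1 u w) := by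
  have key : ∀ u w : W, u ∈ E0 → w ∉ E0 →
      colV E0 ρ c1 k1 (Sum.inl (quad q (ρ u))) (Sum.inr (q, w))
        = Equiv.swap k1 (mid q) (c1 u w) := by
    intro u w hu _
    have hex : ∃ w' ∈ E0, quad q (ρ w') = quad q (ρ u) := ⟨u, hu, rfl⟩
    simp only [colV]
    rw [dif_pos hex]
    have hsp := hex.choose_spec
    have : hex.choose = u := hρ hsp.1 hu (quad_injective q hsp.2)
    rw [this]
  unfold glue
  by_cases hu : u ∈ E0 <;> by_cases hw : w ∈ E0
  · rw [if_pos hu, if_pos hw]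
    have h1 : ρ u ≠ ρ w := fun h => huw (hρ hu hw h)
    change c0 _ _ = _
    rw [c0_quad q _ _ h1, hk u hu w hw huw, Equiv.swap_apply_left]
  · rw [if_pos hu, if_neg hw]
    exact key u w hu hw
  · rw [if_neg hu, if_pos hw, colV_symm hs, hs u w]
    exact key w u hw hu
  · rw [if_neg hu, if_neg hw]
    simp only [colV, if_true]

end

/-- the test edge -/
def Yv (W : Type) (i j : Fin 6) (t : Fin 4) : Vx W := Sum.inl (Sum.inr ((i, j), t))

theorem Yv_injective (W : Type) (i j : Fin 6) : Function.Injective (Yv W i j) := by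
  intro a b h
  simpa [Yv] using h

theorem exists_hypergraph : ∃ (V : Type) (_ : Fintype V) (_ : DecidableEq V)
    (H : Finset (Finset V)) (Y : Fin 6 → Fin 6 → Fin 4 → V),
    (∀ E ∈ H, E.card = 4) ∧ SGood H ∧ (∀ i j, Function.Injective (Y i j)) ∧
    (∀ i j, i ≠ j → Finset.univ.image (Y i j) ∈ H) ∧
    ∀ col : V → V → Fin 6, (∀ x y, col x y = col y x) → (∀ E ∈ H, ¬ SMono col E) →
      ∃ r : Fin 6 → Fin 6, Function.Injective r ∧ ∀ i j, i ≠ j →
        col (Y i j 0) (Y i j 2) = r i ∧ col (Y i j 1) (Y i j 3) = r i ∧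
        col (Y i j 0) (Y i j 3) = r i ∧ col (Y i j 1) (Y i j 2) = r i ∧
        col (Y i j 0) (Y i j 1) = r j ∧ col (Y i j 2) (Y i j 3) = r j := by
  classical
  obtain ⟨W, _, _, G, E0, c1, k1, hE0, hG4, hsym, hG, hk1, hforce⟩ := exists_gadget
  -- a numbering of `E0`
  obtain ⟨ρ, hρ, hsurj⟩ : ∃ ρ : W → Fin 4, Set.InjOn ρ E0 ∧ ∀ t, ∃ u ∈ E0, ρ u = t := by
    let e := E0.equivFinOfCardEq hE0
    refine ⟨fun u => if h : u ∈ E0 then e ⟨u, h⟩ else 0, ?_, ?_⟩
    · intro u hu w hw h
      simp only [Finset.mem_coe] at hu hw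
      simp only [dif_pos hu, dif_pos hw] at h
      simpa using e.injective h
    · intro t
      refine ⟨(e.symm t).1, (e.symm t).2, ?_⟩
      simp
  let Eij : Fin 6 × Fin 6 → Finset (Vx W) := fun p => Finset.univ.image (Yv W p.1 p.2)
  let H : Finset (Finset (Vx W)) :=
    ((Finset.univ.filter (fun p : Fin 6 × Fin 6 => p.1 ≠ p.2)).image Eij) ∪
    (Finset.univ : Finset Idx).biUnion (fun q => G.image (fun E => E.image (glue E0 ρ q)))
  have hgi := glue_injective E0 ρ hρ
  refine ⟨Vx W, inferInstance, inferInstance, H, fun i j => Yv W i j, ?_, ?_,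
    fun i j => Yv_injective W i j, ?_, ?_⟩
  · intro E hE
    rcases Finset.mem_union.1 hE with h | h
    · obtain ⟨p, _, rfl⟩ := Finset.mem_image.1 h
      change (Finset.univ.image (Yv W p.1 p.2)).card = 4
      rw [Finset.card_image_of_injective _ (Yv_injective W _ _)]
      simp
    · obtain ⟨q, _, h⟩ := Finset.mem_biUnion.1 h
      obtain ⟨E', hE', rfl⟩ := Finset.mem_image.1 h
      rw [Finset.card_image_of_injective _ (hgi q), hG4 E' hE']
  · refine ⟨colV E0 ρ c1 k1, colV_symm hsym, ?_⟩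
    intro E hE
    rcases Finset.mem_union.1 hE with h | h
    · obtain ⟨p, hp, rfl⟩ := Finset.mem_image.1 h
      rintro ⟨k, hk⟩
      have h1 := hk (Yv W p.1 p.2 0) (Finset.mem_image_of_mem _ (Finset.mem_univ _))
        (Yv W p.1 p.2 1) (Finset.mem_image_of_mem _ (Finset.mem_univ _))
        (fun h => absurd (Yv_injective W _ _ h) (by decide))
      have h2 := hk (Yv W p.1 p.2 0) (Finset.mem_image_of_mem _ (Finset.mem_univ _))
        (Yv W p.1 p.2 2) (Finset.mem_image_of_mem _ (Finset.mem_univ _))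
        (fun h => absurd (Yv_injective W _ _ h) (by decide))
      simp only [colV, Yv, c0, if_true] at h1 h2
      norm_num at h1 h2
      exact (Finset.mem_filter.1 hp).2 (by rw [h2, h1])
    · obtain ⟨q, _, h⟩ := Finset.mem_biUnion.1 h
      obtain ⟨E', hE', rfl⟩ := Finset.mem_image.1 h
      rintro ⟨k, hk⟩
      refine hG E' hE' ⟨(Equiv.swap k1 (mid q)).symm k, ?_⟩
      intro x hx y hy hxy
      have := hk _ (Finset.mem_image_of_mem _ hx) _ (Finset.mem_image_of_mem _ hy)
        (fun h => hxy (hgi q h))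
      rw [colV_glue hsym hρ hk1 q x y hxy] at this
      rw [← this, Equiv.symm_apply_apply]
  · intro i j hij
    exact Finset.mem_union_left _ (Finset.mem_image.2
      ⟨(i, j), Finset.mem_filter.2 ⟨Finset.mem_univ _, hij⟩, rfl⟩)
  · intro col hcs hcol
    have hq : ∀ q : Idx, ∃ k, ∀ a b : Fin 4, a ≠ b →
        col (Sum.inl (quad q a)) (Sum.inl (quad q b)) = k := by
      intro q
      obtain ⟨k, hk⟩ := hforce (fun u w => col (glue E0 ρ q u) (glue E0 ρ q w))
        (fun x y => hcs _ _) (by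
          intro E hE
          rintro ⟨k, hk⟩
          refine hcol (E.image (glue E0 ρ q)) (Finset.mem_union_right _ (Finset.mem_biUnion.2
            ⟨q, Finset.mem_univ _, Finset.mem_image.2 ⟨E, hE, rfl⟩⟩)) ⟨k, ?_⟩
          intro x hx y hy hxy
          obtain ⟨u, hu, rfl⟩ := Finset.mem_image.1 hx
          obtain ⟨w, hw, rfl⟩ := Finset.mem_image.1 hy
          exact hk u hu w hw (fun h => hxy (by rw [h])))
      refine ⟨k, fun a b hab => ?_⟩
      obtain ⟨u, hu, rfl⟩ := hsurj a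
      obtain ⟨w, hw, rfl⟩ := hsurj b
      have := hk u hu w hw (fun h => hab (by rw [h]))
      simpa only [glue, if_pos hu, if_pos hw] using this
    let r : Fin 6 → Fin 6 := fun i => col (Sum.inl (Sum.inl (i, 0))) (Sum.inl (Sum.inl (i, 1)))
    have hr : ∀ q : Idx, col (Sum.inl (Sum.inr (q.1, t1 q.2))) (Sum.inl (Sum.inr (q.1, t2 q.2)))
        = r (mid q) := by
      intro q
      obtain ⟨k, hk⟩ := hq q
      have h1 := hk 0 1 (by decide)
      have h2 := hk 2 3 (by decide)
      simp only [quad] at h1 h2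
      change col (Sum.inl (Sum.inr (q.1, t1 q.2))) (Sum.inl (Sum.inr (q.1, t2 q.2))) = k at h1
      change col (Sum.inl (Sum.inl (mid q, 0))) (Sum.inl (Sum.inl (mid q, 1))) = k at h2
      rw [h1, ← h2]
    have hpat : ∀ i j : Fin 6,
        col (Yv W i j 0) (Yv W i j 2) = r i ∧ col (Yv W i j 1) (Yv W i j 3) = r i ∧
        col (Yv W i j 0) (Yv W i j 3) = r i ∧ col (Yv W i j 1) (Yv W i j 2) = r i ∧
        col (Yv W i j 0) (Yv W i j 1) = r j ∧ col (Yv W i j 2) (Yv W i j 3) = r j := by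
      intro i j
      exact ⟨hr ((i, j), 0), hr ((i, j), 1), hr ((i, j), 2), hr ((i, j), 3), hr ((i, j), 4),
        hr ((i, j), 5)⟩
    refine ⟨r, ?_, fun i j _ => hpat i j⟩
    intro i j hrij
    by_contra hij
    obtain ⟨p02, p13, p03, p12, p01, p23⟩ := hpat i j
    refine hcol (Finset.univ.image (Yv W i j)) (Finset.mem_union_left _ (Finset.mem_image.2
      ⟨(i, j), Finset.mem_filter.2 ⟨Finset.mem_univ _, hij⟩, rfl⟩)) ⟨r i, ?_⟩
    have hlt : ∀ a b : Fin 4, a < b → col (Yv W i j a) (Yv W i j b) = r i := by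
      intro a b hab
      fin_cases a <;> fin_cases b <;> first
        | (exact absurd hab (by decide))
        | assumption
        | (rw [hrij]; assumption)
    intro x hx y hy hxy
    obtain ⟨a, _, rfl⟩ := Finset.mem_image.1 hx
    obtain ⟨b, _, rfl⟩ := Finset.mem_image.1 hy
    have hab : a ≠ b := fun h => hxy (by rw [h])
    rcases lt_or_gt_of_ne hab with h | h
    · exact hlt a b h
    · rw [hcs]; exact hlt b a h

end Pool.Agent.X153.OH
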